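import Pool.Agent.H295R2.Beu.Defs

/-!
# B6: the upper bound in the exact rate of Beurling's theorem
-/

set_option autoImplicit false

open MeasureTheory Filter Topology Set

namespace Pool.Agent.H846R2.Beu

open Pool.Agent.H295R2 Pool.Agent.H295R2.Beu

noncomputable section

/-- the coefficients of the natural approximant -/
def cf (N : ℕ) (j : Fin N) : ℝ :=
  -mu ((j : ℕ) + 1) + if (j : ℕ) + 1 = N then (N : ℝ) * mm N else 0

theorem sum_Icc_fin (N : ℕ) (f : ℕ → ℝ) :
    ∑ n ∈ Finset.Icc 1 N, f n = ∑ j : Fin N, f ((j : ℕ) + 1) := by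
  have h : Finset.Icc 1 N = Finset.Ico 1 (N + 1) := by
    ext x
    simp only [Finset.mem_Icc, Finset.mem_Ico]
    omega
  rw [h, Finset.sum_Ico_eq_sum_range, Nat.add_sub_cancel, Finset.sum_range]
  refine Finset.sum_congr rfl fun j _ => ?_
  rw [add_comm]

theorem sum_last (N : ℕ) (hN : 1 ≤ N) (c : ℝ) (g : ℕ → ℝ) :
    ∑ j : Fin N, (if (j : ℕ) + 1 = N then c else 0) * g ((j : ℕ) + 1) = c * g N := by
  rw [Finset.sum_eq_single (⟨N - 1, by omega⟩ : Fin N)]
  · have h : N - 1 + 1 = N := by omega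
    simp [h]
  · intro b _ hb
    have : (b : ℕ) + 1 ≠ N := by
      intro h
      apply hb
      ext
      simp
      omega
    simp [this]
  · intro h
    exact absurd (Finset.mem_univ _) h

theorem cf_sum (N : ℕ) (hN : 1 ≤ N) :
    ∑ j, cf N j * (1 / ((j : ℕ) + 1 : ℝ)) = 0 := by
  have hN0 : (N : ℝ) ≠ 0 := by
    have : 0 < N := hN
    positivity
  unfold cf
  simp only [add_mul, Finset.sum_add_distrib]
  have h1 : ∑ j : Fin N, -mu ((j : ℕ) + 1) * (1 / ((j : ℕ) + 1 : ℝ)) = -mm N := by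
    unfold mm
    rw [sum_Icc_fin N (fun n => mu n / n), ← Finset.sum_neg_distrib]
    refine Finset.sum_congr rfl fun j _ => ?_
    push_cast
    ring
  have h2 : ∑ j : Fin N, (if (j : ℕ) + 1 = N then (N : ℝ) * mm N else 0) *
      (1 / ((j : ℕ) + 1 : ℝ)) = mm N := by
    have := sum_last N hN ((N : ℝ) * mm N) (fun n => 1 / (n : ℝ))
    push_cast at this
    rw [this]
    field_simp
  rw [h1, h2]
  ring

theorem one_sub_comb (N : ℕ) (hN : 1 ≤ N) (x : ℝ) :
    1 - comb (cf N) (fun j => 1 / ((j : ℕ) + 1 : ℝ)) x = RR N x⁻¹ := by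
  unfold comb RR cf
  simp only [add_mul, Finset.sum_add_distrib]
  have hf : ∀ j : Fin N, Int.fract (1 / ((j : ℕ) + 1 : ℝ) / x) =
      Int.fract (x⁻¹ / (((j : ℕ) + 1 : ℕ) : ℝ)) := by
    intro j
    congr 1
    push_cast
    rw [div_div, one_div, mul_inv, div_eq_mul_inv, mul_comm]
  have h1 : ∑ j : Fin N, -mu ((j : ℕ) + 1) * Int.fract (1 / ((j : ℕ) + 1 : ℝ) / x) =
      -∑ n ∈ Finset.Icc 1 N, mu n * Int.fract (x⁻¹ / n) := by
    rw [sum_Icc_fin N (fun n => mu n * Int.fract (x⁻¹ / n)), ← Finset.sum_neg_distrib]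
    refine Finset.sum_congr rfl fun j _ => ?_
    rw [hf]
    ring
  have h2 : ∑ j : Fin N, (if (j : ℕ) + 1 = N then (N : ℝ) * mm N else 0) *
      Int.fract (1 / ((j : ℕ) + 1 : ℝ) / x) = N * mm N * Int.fract (x⁻¹ / N) := by
    have := sum_last N hN ((N : ℝ) * mm N) (fun n => Int.fract (x⁻¹ / n))
    rw [← this]
    refine Finset.sum_congr rfl fun j _ => ?_
    rw [hf]
  rw [h1, h2]
  ring

theorem measurable_RR (N : ℕ) : Measurable (RR N) := by
  unfold RR
  refine Measurable.sub (Measurable.add measurable_const ?_) ?_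
  · refine Finset.measurable_sum _ fun n _ => ?_
    exact (measurable_fract.comp (measurable_id.div_const _)).const_mul _
  · exact (measurable_fract.comp (measurable_id.div_const _)).const_mul _

/-- substitution `y = 1/x` -/
theorem subst (N : ℕ) (hN : 1 ≤ N) (p γ : ℝ) :
    ∫ x in (0:ℝ)..1, |1 - comb (cf N) (fun j => 1 / ((j : ℕ) + 1 : ℝ)) x| ^ p * x ^ γ =
      ∫ y in Ioi (0:ℝ), (Ici (1:ℝ)).indicator (fun y => |RR N y| ^ p * y ^ (-γ - 2)) y := by
  have h0 := integral_comp_rpow_Ioi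
    (fun y : ℝ => (Iic (1:ℝ)).indicator (fun y => |RR N y⁻¹| ^ p * y ^ γ) y) (p := -1) (by norm_num)
  have hl : ∫ x in (0:ℝ)..1, |1 - comb (cf N) (fun j => 1 / ((j : ℕ) + 1 : ℝ)) x| ^ p * x ^ γ =
      ∫ y in Ioi (0:ℝ), (Iic (1:ℝ)).indicator (fun y => |RR N y⁻¹| ^ p * y ^ γ) y := by
    rw [intervalIntegral.integral_of_le zero_le_one, setIntegral_indicator measurableSet_Iic,
      Ioi_inter_Iic]
    simp only [one_sub_comb N hN]
  rw [hl, ← h0]
  refine setIntegral_congr_fun measurableSet_Ioi fun x hx => ?_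
  have hx : (0:ℝ) < x := hx
  have hinv : x ^ (-1 : ℝ) = x⁻¹ := Real.rpow_neg_one x
  simp only [smul_eq_mul, hinv]
  by_cases h1 : 1 ≤ x
  · have h2 : x⁻¹ ∈ Iic (1:ℝ) := inv_le_one_of_one_le₀ h1
    have h3 : x ∈ Ici (1:ℝ) := h1
    rw [indicator_of_mem h2, indicator_of_mem h3, inv_inv, ← Real.rpow_neg_one x,
      ← Real.rpow_mul hx.le]
    have h4 : x ^ (-γ - 2) = x ^ ((-1:ℝ) - 1) * x ^ (-1 * γ) := by
      rw [← Real.rpow_add hx]
      congr 1
      ring
    rw [h4]
    simp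
    ring
  · have h2 : x⁻¹ ∉ Iic (1:ℝ) := by
      intro h
      apply h1
      have : x⁻¹ ≤ 1 := h
      rwa [inv_le_one₀ hx] at this
    have h3 : x ∉ Ici (1:ℝ) := h1
    rw [indicator_of_notMem h2, indicator_of_notMem h3]
    simp

/-- B6 -/
theorem upperB (h1 : RL2) (h2 : RZero) (h3 : RBound) : UpperB := by
  intro p γ θ σ δ hp hp2 hγ hθ hθσ hσ1 hZ hσp hδ
  obtain ⟨C, hC, hL2⟩ := h1 θ σ δ hθ hθσ hσ1 hZ hδ
  have hσ0 : 0 < σ := by linarith
  have he : 0 < 1 + γ - σ * p := by linarith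
  refine ⟨C + 1 / (1 + γ - σ * p), by positivity, fun N hN => ⟨cf N, cf_sum N hN, ?_⟩⟩
  rw [subst N hN]
  have hN1 : (1:ℝ) ≤ N := by exact_mod_cast hN
  have hN0 : (0:ℝ) < N := by linarith
  -- integrability
  have hI1 : IntegrableOn (fun y : ℝ => RR N y ^ 2 * y ^ (-2 * σ - 1)) (Ioi 1) := by
    have hb : IntegrableOn (fun y : ℝ => (9 * (N:ℝ) ^ 4) * y ^ (-2 * σ - 1)) (Ioi 1) :=
      (integrableOn_Ioi_rpow_of_lt (by linarith) one_pos).const_mul _
    refine Integrable.mono' hb ?_ ?_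
    · exact (((measurable_RR N).pow_const 2).mul
        (measurable_id.pow_const _)).aestronglyMeasurable
    · refine (ae_restrict_iff' measurableSet_Ioi).2 (Filter.Eventually.of_forall fun y hy => ?_)
      have hy : (1:ℝ) < y := hy
      have hy0 : 0 ≤ y ^ (-2 * σ - 1) := Real.rpow_nonneg (by linarith) _
      rw [Real.norm_eq_abs, abs_mul, abs_of_nonneg hy0, abs_of_nonneg (sq_nonneg _)]
      refine mul_le_mul_of_nonneg_right ?_ hy0
      have := h3 N hN y
      rw [← sq_abs]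
      calc |RR N y| ^ 2 ≤ (3 * (N:ℝ) ^ 2) ^ 2 := pow_le_pow_left₀ (abs_nonneg _) this 2
        _ = 9 * (N:ℝ) ^ 4 := by ring
  have hI2 : IntegrableOn (fun y : ℝ => y ^ (σ * p - γ - 2)) (Ioi (N:ℝ)) :=
    integrableOn_Ioi_rpow_of_lt (by linarith) hN0
  have hI2v : ∫ y in Ioi (N:ℝ), y ^ (σ * p - γ - 2) =
      (N:ℝ) ^ (σ * p - γ - 1) / (1 + γ - σ * p) := by
    rw [integral_Ioi_rpow_of_lt (by linarith) hN0]
    have : σ * p - γ - 2 + 1 = σ * p - γ - 1 := by ring
    rw [this]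
    have h' : (1 + γ - σ * p) ≠ 0 := he.ne'
    have h'' : σ * p - γ - 1 ≠ 0 := by
      intro h
      apply h'
      linarith
    field_simp
    ring
  -- split
  rw [setIntegral_indicator measurableSet_Ici]
  have hset : Ioi (0:ℝ) ∩ Ici 1 = Ici 1 := by
    ext x
    simp only [mem_inter_iff, mem_Ioi, mem_Ici]
    constructor
    · exact fun h => h.2
    · exact fun h => ⟨by linarith, h⟩
  rw [hset, integral_Ici_eq_integral_Ioi]
  set G : ℝ → ℝ := fun y => (N:ℝ) ^ (σ * p - γ - 1) * (RR N y ^ 2 * y ^ (-2 * σ - 1)) +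
    (Ici (N:ℝ)).indicator (fun y : ℝ => y ^ (σ * p - γ - 2)) y with hG
  have hI3 : IntegrableOn ((Ici (N:ℝ)).indicator (fun y : ℝ => y ^ (σ * p - γ - 2))) (Ioi 1) := by
    refine Integrable.integrableOn ?_
    rw [integrable_indicator_iff measurableSet_Ici, integrableOn_Ici_iff_integrableOn_Ioi]
    exact hI2
  have hGI : IntegrableOn G (Ioi 1) := (hI1.const_mul _).add hI3
  have hle : ∫ y in Ioi (1:ℝ), |RR N y| ^ p * y ^ (-γ - 2) ≤ ∫ y in Ioi (1:ℝ), G y := by
    refine integral_mono_of_nonneg ?_ hGI ?_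
    · refine (ae_restrict_iff' measurableSet_Ioi).2 (Filter.Eventually.of_forall fun y hy => ?_)
      have hy : (1:ℝ) < y := hy
      have : (0:ℝ) ≤ y := by linarith
      show 0 ≤ |RR N y| ^ p * y ^ (-γ - 2)
      positivity
    · refine (ae_restrict_iff' measurableSet_Ioi).2 (Filter.Eventually.of_forall fun y hy => ?_)
      have hy : (1:ℝ) < y := hy
      have hy0 : (0:ℝ) < y := by linarith
      show |RR N y| ^ p * y ^ (-γ - 2) ≤ G y
      by_cases hyN : y < N
      · rw [h2 N hN y hy.le hyN]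
        have hn : y ∉ Ici (N:ℝ) := by simpa using hyN
        simp only [hG, h2 N hN y hy.le hyN, indicator_of_notMem hn]
        simp [Real.zero_rpow hp.ne']
      · have hyN : (N:ℝ) ≤ y := not_lt.1 hyN
        have hm : y ∈ Ici (N:ℝ) := hyN
        simp only [hG, indicator_of_mem hm]
        set R := |RR N y| with hR
        have hR0 : 0 ≤ R := abs_nonneg _
        have hR2 : RR N y ^ 2 = R ^ 2 := (sq_abs _).symm
        have hM : 0 < y ^ σ := Real.rpow_pos_of_pos hy0 _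
        have hkey : R ^ p ≤ (y ^ σ) ^ (p - 2) * R ^ 2 + (y ^ σ) ^ p := by
          by_cases hc : R ≤ y ^ σ
          · have : R ^ p ≤ (y ^ σ) ^ p := Real.rpow_le_rpow hR0 hc hp.le
            have h5 : 0 ≤ (y ^ σ) ^ (p - 2) * R ^ 2 := by positivity
            linarith
          · have hc : y ^ σ < R := not_le.1 hc
            have hRpos : 0 < R := hM.trans hc
            have h6 : R ^ (p - 2) ≤ (y ^ σ) ^ (p - 2) :=
              Real.rpow_le_rpow_of_nonpos hM hc.le (by linarith)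
            have h7 : R ^ p = R ^ (p - 2) * R ^ 2 := by
              rw [← Real.rpow_natCast R 2, ← Real.rpow_add hRpos]
              congr 1
              push_cast
              ring
            rw [h7]
            have h8 : 0 ≤ (y ^ σ) ^ p := by positivity
            have h9 := mul_le_mul_of_nonneg_right h6 (sq_nonneg R)
            linarith
        have hyg : 0 ≤ y ^ (-γ - 2) := Real.rpow_nonneg hy0.le _
        have h10 := mul_le_mul_of_nonneg_right hkey hyg
        have h11 : (y ^ σ) ^ p * y ^ (-γ - 2) = y ^ (σ * p - γ - 2) := by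
          rw [← Real.rpow_mul hy0.le, ← Real.rpow_add hy0]
          congr 1
          ring
        have h12 : (y ^ σ) ^ (p - 2) * y ^ (-γ - 2) = y ^ (σ * p - γ - 1) * y ^ (-2 * σ - 1) := by
          rw [← Real.rpow_mul hy0.le, ← Real.rpow_add hy0, ← Real.rpow_add hy0]
          congr 1
          ring
        have h13 : y ^ (σ * p - γ - 1) ≤ (N:ℝ) ^ (σ * p - γ - 1) :=
          Real.rpow_le_rpow_of_nonpos hN0 hyN (by linarith)
        have h14 : 0 ≤ R ^ 2 * y ^ (-2 * σ - 1) := by positivity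
        rw [hR2]
        calc R ^ p * y ^ (-γ - 2) ≤ ((y ^ σ) ^ (p - 2) * R ^ 2 + (y ^ σ) ^ p) * y ^ (-γ - 2) := h10
          _ = y ^ (σ * p - γ - 1) * (R ^ 2 * y ^ (-2 * σ - 1)) + y ^ (σ * p - γ - 2) := by
            rw [add_mul, h11]
            have : (y ^ σ) ^ (p - 2) * R ^ 2 * y ^ (-γ - 2) =
              ((y ^ σ) ^ (p - 2) * y ^ (-γ - 2)) * R ^ 2 := by ring
            rw [this, h12]
            ring
          _ ≤ _ := by
            have := mul_le_mul_of_nonneg_right h13 h14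
            linarith
  refine hle.trans ?_
  have hval : ∫ y in Ioi (1:ℝ), G y =
      (N:ℝ) ^ (σ * p - γ - 1) * (∫ y in Ioi (1:ℝ), RR N y ^ 2 * y ^ (-2 * σ - 1)) +
        (N:ℝ) ^ (σ * p - γ - 1) / (1 + γ - σ * p) := by
    rw [hG, integral_add (hI1.const_mul _) hI3, integral_const_mul]
    congr 1
    rw [setIntegral_indicator measurableSet_Ici, ← hI2v, ← integral_Ici_eq_integral_Ioi]
    by_cases h : (N:ℝ) = 1
    · have : Ioi (1:ℝ) ∩ Ici (N:ℝ) = Ioi (N:ℝ) := by
        ext x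
        simp only [mem_inter_iff, mem_Ioi, mem_Ici, h]
        constructor
        · exact fun h => h.1
        · exact fun h => ⟨h, h.le⟩
      rw [this, integral_Ici_eq_integral_Ioi]
    · have h' : (1:ℝ) < N := lt_of_le_of_ne hN1 (Ne.symm h)
      have : Ioi (1:ℝ) ∩ Ici (N:ℝ) = Ici (N:ℝ) := by
        ext x
        simp only [mem_inter_iff, mem_Ioi, mem_Ici]
        constructor
        · exact fun h => h.2
        · exact fun h => ⟨by linarith, h⟩
      rw [this]
  rw [hval]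
  have hL := hL2 N hN
  have hNp : 0 < (N:ℝ) ^ (σ * p - γ - 1) := Real.rpow_pos_of_pos hN0 _
  have hNd : 1 ≤ (N:ℝ) ^ δ := Real.one_le_rpow hN1 hδ.le
  have hsplit : (N:ℝ) ^ (σ * p - (1 + γ) + δ) = (N:ℝ) ^ (σ * p - γ - 1) * (N:ℝ) ^ δ := by
    rw [← Real.rpow_add hN0]
    congr 1
    ring
  rw [hsplit]
  have h20 := mul_le_mul_of_nonneg_left hL hNp.le
  have h21 : (N:ℝ) ^ (σ * p - γ - 1) / (1 + γ - σ * p) ≤
      1 / (1 + γ - σ * p) * ((N:ℝ) ^ (σ * p - γ - 1) * (N:ℝ) ^ δ) := by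
    rw [div_eq_mul_one_div, mul_comm]
    refine mul_le_mul_of_nonneg_left ?_ (by positivity)
    nlinarith
  nlinarith

end

end Pool.Agent.H846R2.Beu
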